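import Pool.Agent.FS.SuperFive.Aux5

/-! The size argument and the bound in strength at least five. -/

namespace Pool.Agent.FS.SuperFive
open Pool.Agent.FS.SuperQuad

theorem size5 (k s : ℤ) (hk : 10 ^ 6 ≤ k) (s0 : k ^ 2 ≤ 2 * s) (s1 : 10 ^ 20 * s ^ 2 ≤ k ^ 5) :
    0 < F5 k s ∧ F5 k s ≤ 2 * 10 ^ 13 * (k ^ 20 * s ^ 2) := by
  have k0 : 0 < k := by linarith
  have e : ∀ i : ℕ, 10 ^ 6 * k ^ i ≤ k ^ (i + 1) := fun i => by
    rw [pow_succ' k]; exact mul_le_mul_of_nonneg_right hk (pow_nonneg k0.le i)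
  have e1 : 10 ^ 6 * k ≤ k ^ 2 := by simpa using e 1
  have e2 : 10 ^ 6 * k ^ 2 ≤ k ^ 3 := e 2
  have e3 : 10 ^ 6 * k ^ 3 ≤ k ^ 4 := e 3
  have e4 : 10 ^ 6 * k ^ 4 ≤ k ^ 5 := e 4
  have e5 : 10 ^ 6 * k ^ 5 ≤ k ^ 6 := e 5
  have e6 : 10 ^ 6 * k ^ 6 ≤ k ^ 7 := e 6
  have e7 : 10 ^ 6 * k ^ 7 ≤ k ^ 8 := e 7
  have e8 : 10 ^ 6 * k ^ 8 ≤ k ^ 9 := e 8
  have e9 : 10 ^ 6 * k ^ 9 ≤ k ^ 10 := e 9
  have e10 : 10 ^ 6 * k ^ 10 ≤ k ^ 11 := e 10
  have e11 : 10 ^ 6 * k ^ 11 ≤ k ^ 12 := e 11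
  have e12 : 10 ^ 6 * k ^ 12 ≤ k ^ 13 := e 12
  have e13 : 10 ^ 6 * k ^ 13 ≤ k ^ 14 := e 13
  have e14 : 10 ^ 6 * k ^ 14 ≤ k ^ 15 := e 14
  have e15 : 10 ^ 6 * k ^ 15 ≤ k ^ 16 := e 15
  have e16 : 10 ^ 6 * k ^ 16 ≤ k ^ 17 := e 16
  have e17 : 10 ^ 6 * k ^ 17 ≤ k ^ 18 := e 17
  have e18 : 10 ^ 6 * k ^ 18 ≤ k ^ 19 := e 18
  have e19 : 10 ^ 6 * k ^ 19 ≤ k ^ 20 := e 19
  have e20 : 10 ^ 6 * k ^ 20 ≤ k ^ 21 := e 20
  have e21 : 10 ^ 6 * k ^ 21 ≤ k ^ 22 := e 21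
  have p2 : 0 < k ^ 2 := by positivity
  have hs : 0 < s := by linarith
  have q2 : 0 < s ^ 2 := by positivity
  have s2 : 10 ^ 6 * s ≤ k ^ 3 := by
    have : (10 ^ 6 * s) ^ 2 ≤ (k ^ 3) ^ 2 := by
      have a : (k ^ 3) ^ 2 = k ^ 6 := by ring
      have b : (10 ^ 6 * s) ^ 2 = 10 ^ 12 * s ^ 2 := by ring
      linarith
    exact (pow_le_pow_iff_left₀ (by positivity) (by positivity) two_ne_zero).mp this
  obtain ⟨A1, hA1⟩ : ∃ A, A = ((718750835722080)*k^9 + (6042961402212240)*k^10 + (23067620161471440)*k^11 + (52916241400698120)*k^12 + (81366971475746990)*k^13 + (88550858236638125)*k^14 + (70171912839804370)*k^15 + (41003008006526830)*k^16 + (17670842178101670)*k^17 + (5549282150409240)*k^18 + (1234785758156470)*k^19 + (184436681872330)*k^20 + (16582765271540)*k^21 + (678135917675)*k^22) := ⟨_, rfl⟩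
  have u1 : A1 * s ^ 1 ≤ 684917276852 * (k ^ 22 * s ^ 1) :=
    (mul_le_mul_of_nonneg_right (show A1 ≤ 684917276852 * k ^ 22 by linarith) (by positivity)).trans_eq (by ring)
  have l1 : (671354558498) * (k ^ 22 * s ^ 1) ≤ A1 * s ^ 1 :=
    (by ring : _ = (671354558498) * k ^ 22 * s ^ 1).trans_le (mul_le_mul_of_nonneg_right (show (671354558498) * k ^ 22 ≤ A1 by linarith) (by positivity))
  obtain ⟨A2, hA2⟩ : ∃ A, A = ((26370449029860480)*k^8 + (189877705146346464)*k^9 + (613888513764539328)*k^10 + (1178604324348248400)*k^11 + (1497348477953391944)*k^12 + (1327289065901372470)*k^13 + (842734469106353576)*k^14 + (386698558269439986)*k^15 + (127459303859117772)*k^16 + (29474317625047962)*k^17 + (4545381264317392)*k^18 + (420260958084110)*k^19 + (17637270958900)*k^20) := ⟨_, rfl⟩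
  have u2 : A2 * s ^ 2 ≤ 17813643668490 * (k ^ 20 * s ^ 2) :=
    (mul_le_mul_of_nonneg_right (show A2 ≤ 17813643668490 * k ^ 20 by linarith) (by positivity)).trans_eq (by ring)
  have l2 : (17460898249310) * (k ^ 20 * s ^ 2) ≤ A2 * s ^ 2 :=
    (by ring : _ = (17460898249310) * k ^ 20 * s ^ 2).trans_le (mul_le_mul_of_nonneg_right (show (17460898249310) * k ^ 20 ≤ A2 by linarith) (by positivity))
  obtain ⟨A3, hA3⟩ : ∃ A, A = ((60378580834516224)*k^7 + (276291974782999296)*k^8 + (489914914649331456)*k^9 + (370105364953098432)*k^10 + (-14638602289382352)*k^11 + (-257868007842387168)*k^12 + (-224804629609417008)*k^13 + (-99712613189234304)*k^14 + (-25341097525806384)*k^15 + (-3514650624804960)*k^16 + (-207097979570640)*k^17) := ⟨_, rfl⟩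
  have u3 : A3 * s ^ 3 ≤ 209168959366347 * (k ^ 17 * s ^ 3) :=
    (mul_le_mul_of_nonneg_right (show A3 ≤ 209168959366347 * k ^ 17 by linarith) (by positivity)).trans_eq (by ring)
  have l3 : (-209168959366347) * (k ^ 17 * s ^ 3) ≤ A3 * s ^ 3 :=
    (by ring : _ = (-209168959366347) * k ^ 17 * s ^ 3).trans_le (mul_le_mul_of_nonneg_right (show (-209168959366347) * k ^ 17 ≤ A3 by linarith) (by positivity))
  obtain ⟨A4, hA4⟩ : ∃ A, A = ((-1982328412887505152)*k^6 + (-10491304620182601600)*k^7 + (-23840531407757359296)*k^8 + (-30539222578942083360)*k^9 + (-24347430292695744384)*k^10 + (-12569456634524150112)*k^11 + (-4219011786011389632)*k^12 + (-891700596676917216)*k^13 + (-108137774761795584)*k^14 + (-5755243788041760)*k^15) := ⟨_, rfl⟩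
  have u4 : A4 * s ^ 4 ≤ 5812796225922178 * (k ^ 15 * s ^ 4) :=
    (mul_le_mul_of_nonneg_right (show A4 ≤ 5812796225922178 * k ^ 15 by linarith) (by positivity)).trans_eq (by ring)
  have l4 : (-5812796225922178) * (k ^ 15 * s ^ 4) ≤ A4 * s ^ 4 :=
    (by ring : _ = (-5812796225922178) * k ^ 15 * s ^ 4).trans_le (mul_le_mul_of_nonneg_right (show (-5812796225922178) * k ^ 15 ≤ A4 by linarith) (by positivity))
  obtain ⟨A5, hA5⟩ : ∃ A, A = ((-10146266104231821312)*k^5 + (-35389032300577013760)*k^6 + (-49420342526236065792)*k^7 + (-35566307887379558400)*k^8 + (-14107816489918906368)*k^9 + (-3008727438158389248)*k^10 + (-297343925547319296)*k^11 + (-7701419819151360)*k^12) := ⟨_, rfl⟩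
  have u5 : A5 * s ^ 5 ≤ 7778434017342874 * (k ^ 12 * s ^ 5) :=
    (mul_le_mul_of_nonneg_right (show A5 ≤ 7778434017342874 * k ^ 12 by linarith) (by positivity)).trans_eq (by ring)
  have l5 : (-7778434017342874) * (k ^ 12 * s ^ 5) ≤ A5 * s ^ 5 :=
    (by ring : _ = (-7778434017342874) * k ^ 12 * s ^ 5).trans_le (mul_le_mul_of_nonneg_right (show (-7778434017342874) * k ^ 12 ≤ A5 by linarith) (by positivity))
  obtain ⟨A6, hA6⟩ : ∃ A, A = ((17316574822184288256)*k^4 + (86419169078602530816)*k^5 + (142094466636762193920)*k^6 + (108086145305159761920)*k^7 + (42313768734291738624)*k^8 + (8350055332764254208)*k^9 + (662892222576402432)*k^10) := ⟨_, rfl⟩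
  have u6 : A6 * s ^ 6 ≤ 669521144802166457 * (k ^ 10 * s ^ 6) :=
    (mul_le_mul_of_nonneg_right (show A6 ≤ 669521144802166457 * k ^ 10 by linarith) (by positivity)).trans_eq (by ring)
  have l6 : (-669521144802166457) * (k ^ 10 * s ^ 6) ≤ A6 * s ^ 6 :=
    (by ring : _ = (-669521144802166457) * k ^ 10 * s ^ 6).trans_le (mul_le_mul_of_nonneg_right (show (-669521144802166457) * k ^ 10 ≤ A6 by linarith) (by positivity))
  obtain ⟨A7, hA7⟩ : ∃ A, A = ((122130938429869916160)*k^3 + (236277938367164841984)*k^4 + (141539998624018071552)*k^5 + (32507335697372282880)*k^6 + (2308333206377594880)*k^7) := ⟨_, rfl⟩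
  have u7 : A7 * s ^ 7 ≤ 2331416538441370829 * (k ^ 7 * s ^ 7) :=
    (mul_le_mul_of_nonneg_right (show A7 ≤ 2331416538441370829 * k ^ 7 by linarith) (by positivity)).trans_eq (by ring)
  have l7 : (-2331416538441370829) * (k ^ 7 * s ^ 7) ≤ A7 * s ^ 7 :=
    (by ring : _ = (-2331416538441370829) * k ^ 7 * s ^ 7).trans_le (mul_le_mul_of_nonneg_right (show (-2331416538441370829) * k ^ 7 ≤ A7 by linarith) (by positivity))
  obtain ⟨A8, hA8⟩ : ∃ A, A = ((-114892781215222333440)*k^2 + (-359510856287869992960)*k^3 + (-197695874957939048448)*k^4 + (-31645906404894572544)*k^5) := ⟨_, rfl⟩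
  have u8 : A8 * s ^ 8 ≤ 31962365468943518270 * (k ^ 5 * s ^ 8) :=
    (mul_le_mul_of_nonneg_right (show A8 ≤ 31962365468943518270 * k ^ 5 by linarith) (by positivity)).trans_eq (by ring)
  have l8 : (-31962365468943518270) * (k ^ 5 * s ^ 8) ≤ A8 * s ^ 8 :=
    (by ring : _ = (-31962365468943518270) * k ^ 5 * s ^ 8).trans_le (mul_le_mul_of_nonneg_right (show (-31962365468943518270) * k ^ 5 ≤ A8 by linarith) (by positivity))
  obtain ⟨A9, hA9⟩ : ∃ A, A = ((-448960608683446763520)*k^1 + (-74826768113907793920)*k^2) := ⟨_, rfl⟩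
  have u9 : A9 * s ^ 9 ≤ 75575035795046871860 * (k ^ 2 * s ^ 9) :=
    (mul_le_mul_of_nonneg_right (show A9 ≤ 75575035795046871860 * k ^ 2 by linarith) (by positivity)).trans_eq (by ring)
  have l9 : (-75575035795046871860) * (k ^ 2 * s ^ 9) ≤ A9 * s ^ 9 :=
    (by ring : _ = (-75575035795046871860) * k ^ 2 * s ^ 9).trans_le (mul_le_mul_of_nonneg_right (show (-75575035795046871860) * k ^ 2 ≤ A9 by linarith) (by positivity))
  obtain ⟨A10, hA10⟩ : ∃ A, A = ((538752730420136116224)*k^0) := ⟨_, rfl⟩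
  have u10 : A10 * s ^ 10 ≤ 544140257724337477387 * (k ^ 0 * s ^ 10) :=
    (mul_le_mul_of_nonneg_right (show A10 ≤ 544140257724337477387 * k ^ 0 by linarith) (by positivity)).trans_eq (by ring)
  have l10 : (-544140257724337477387) * (k ^ 0 * s ^ 10) ≤ A10 * s ^ 10 :=
    (by ring : _ = (-544140257724337477387) * k ^ 0 * s ^ 10).trans_le (mul_le_mul_of_nonneg_right (show (-544140257724337477387) * k ^ 0 ≤ A10 by linarith) (by positivity))
  have hF : F5 k s = A1 * s ^ 1 + A2 * s ^ 2 + A3 * s ^ 3 + A4 * s ^ 4 + A5 * s ^ 5 + A6 * s ^ 6 + A7 * s ^ 7 + A8 * s ^ 8 + A9 * s ^ 9 + A10 * s ^ 10 := by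
    rw [hA1, hA2, hA3, hA4, hA5, hA6, hA7, hA8, hA9, hA10]; rfl
  have m1 : k ^ 22 * s ^ 1 ≤ 2 * (k ^ 20 * s ^ 2) := by
    have := mul_le_mul_of_nonneg_left s0 (by positivity : 0 ≤ k ^ 20 * s)
    linarith
  have m3 : 10 ^ 6 * (k ^ 17 * s ^ 3) ≤ k ^ 20 * s ^ 2 := by
    have := mul_le_mul_of_nonneg_left s2 (by positivity : 0 ≤ k ^ 17 * s ^ 2)
    linarith
  have m4 : 10 ^ 20 * (k ^ 15 * s ^ 4) ≤ k ^ 20 * s ^ 2 := by
    have := mul_le_mul_of_nonneg_left s1 (by positivity : 0 ≤ k ^ 15 * s ^ 2)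
    linarith
  have m5 : 10 ^ 20 * (k ^ 12 * s ^ 5) ≤ k ^ 17 * s ^ 3 := by
    have := mul_le_mul_of_nonneg_left s1 (by positivity : 0 ≤ k ^ 12 * s ^ 3)
    linarith
  have m6 : 10 ^ 20 * (k ^ 10 * s ^ 6) ≤ k ^ 15 * s ^ 4 := by
    have := mul_le_mul_of_nonneg_left s1 (by positivity : 0 ≤ k ^ 10 * s ^ 4)
    linarith
  have m7 : 10 ^ 20 * (k ^ 7 * s ^ 7) ≤ k ^ 12 * s ^ 5 := by
    have := mul_le_mul_of_nonneg_left s1 (by positivity : 0 ≤ k ^ 7 * s ^ 5)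
    linarith
  have m8 : 10 ^ 20 * (k ^ 5 * s ^ 8) ≤ k ^ 10 * s ^ 6 := by
    have := mul_le_mul_of_nonneg_left s1 (by positivity : 0 ≤ k ^ 5 * s ^ 6)
    linarith
  have m9 : 10 ^ 20 * (k ^ 2 * s ^ 9) ≤ k ^ 7 * s ^ 7 := by
    have := mul_le_mul_of_nonneg_left s1 (by positivity : 0 ≤ k ^ 2 * s ^ 7)
    linarith
  have m10 : 10 ^ 20 * (k ^ 0 * s ^ 10) ≤ k ^ 5 * s ^ 8 := by
    have := mul_le_mul_of_nonneg_left s1 (by positivity : 0 ≤ k ^ 0 * s ^ 8)
    linarith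
  have z1 : 0 < k ^ 22 * s ^ 1 := by positivity
  have z2 : 0 < k ^ 20 * s ^ 2 := by positivity
  have z3 : 0 < k ^ 17 * s ^ 3 := by positivity
  have z4 : 0 < k ^ 15 * s ^ 4 := by positivity
  have z5 : 0 < k ^ 12 * s ^ 5 := by positivity
  have z6 : 0 < k ^ 10 * s ^ 6 := by positivity
  have z7 : 0 < k ^ 7 * s ^ 7 := by positivity
  have z8 : 0 < k ^ 5 * s ^ 8 := by positivity
  have z9 : 0 < k ^ 2 * s ^ 9 := by positivity
  have z10 : 0 < k ^ 0 * s ^ 10 := by positivity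
  rw [hF]
  clear hA1 hA2 hA3 hA4 hA5 hA6 hA7 hA8 hA9 hA10 hF e e1 e2 e3 e4 e5 e6 e7 e8 e9 e10 e11 e12 e13 e14 e15 e16 e17 e18 e19 e20 e21
  generalize A1 * s ^ 1 = B1 at *
  generalize k ^ 22 * s ^ 1 = M1 at *
  generalize A2 * s ^ 2 = B2 at *
  generalize k ^ 20 * s ^ 2 = M2 at *
  generalize A3 * s ^ 3 = B3 at *
  generalize k ^ 17 * s ^ 3 = M3 at *
  generalize A4 * s ^ 4 = B4 at *
  generalize k ^ 15 * s ^ 4 = M4 at *
  generalize A5 * s ^ 5 = B5 at *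
  generalize k ^ 12 * s ^ 5 = M5 at *
  generalize A6 * s ^ 6 = B6 at *
  generalize k ^ 10 * s ^ 6 = M6 at *
  generalize A7 * s ^ 7 = B7 at *
  generalize k ^ 7 * s ^ 7 = M7 at *
  generalize A8 * s ^ 8 = B8 at *
  generalize k ^ 5 * s ^ 8 = M8 at *
  generalize A9 * s ^ 9 = B9 at *
  generalize k ^ 2 * s ^ 9 = M9 at *
  generalize A10 * s ^ 10 = B10 at *
  generalize k ^ 0 * s ^ 10 = M10 at *
  constructor <;> linarith

theorem ints5 (k w r b2 b3 b4 b5 : ℤ) (hk : 3 ≤ k) (hf : k * (k - 1) ≤ w - 1)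
    (e1 : r * (k - 1) = w - 1)
    (e2 : b2 * ((k - 1) * k) = (w - 1) * w)
    (e3 : b3 * ((k - 1) * k * (k + 1)) = (w - 1) * w * (w + 1))
    (e4 : b4 * ((k - 1) * k * (k + 1) * (k + 2)) = (w - 1) * w * (w + 1) * (w + 2))
    (e5 : b5 * ((k - 1) * k * (k + 1) * (k + 2) * (k + 3)) =
      (w - 1) * w * (w + 1) * (w + 2) * (w + 3)) :
    k ^ 9 ≤ 10 ^ 24 * (w - 1) ^ 4 := by
  have k1 : 0 < k - 1 := by linarith
  have hr : k ≤ r := by
    rw [← e1] at hf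
    exact le_of_mul_le_mul_right hf k1
  obtain rfl : w = 1 + r * (k - 1) := by linarith
  have c := cong k r
  have z := fun n : ℤ => Int.ModEq.refl (n := n) r
  have h0 : (k+0) ∣ r*(1+0-1*r) := by
    have := move ((z _).mul (c 0 0)) ⟨b2, mul_left_cancel₀ k1.ne' (by linear_combination -e2)⟩
    convert this using 1; ring
  have h1 : (k+1) ∣ r*(1+0-2*r)*(1+1-2*r) := by
    have := move (((z _).mul (c 1 0)).mul (c 1 1))
      ⟨b3 * k, mul_left_cancel₀ k1.ne' (by linear_combination -e3)⟩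
    convert this using 1; ring
  have h2 : (k+2) ∣ r*(1+0-3*r)*(1+1-3*r)*(1+2-3*r) := by
    have := move ((((z _).mul (c 2 0)).mul (c 2 1)).mul (c 2 2))
      ⟨b4 * k * (k + 1), mul_left_cancel₀ k1.ne' (by linear_combination -e4)⟩
    convert this using 1; ring
  have h3 : (k+3) ∣ r*(1+0-4*r)*(1+1-4*r)*(1+2-4*r)*(1+3-4*r) := by
    have := move (((((z _).mul (c 3 0)).mul (c 3 1)).mul (c 3 2)).mul (c 3 3))
      ⟨b5 * k * (k + 1) * (k + 2), mul_left_cancel₀ k1.ne' (by linear_combination -e5)⟩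
    convert this using 1; ring
  have k0 : 0 < k := by linarith
  have r0 : 0 < r := by linarith
  have q : 1 + r * (k - 1) - 1 = r * (k - 1) := by ring
  rw [q]
  by_contra hlt
  rw [not_le] at hlt
  have p4 : 0 < k ^ 4 := by positivity
  have p8 : 0 < k ^ 8 := by positivity
  have kbig : 10 ^ 6 ≤ k := by
    by_contra hh
    rw [not_le] at hh
    have a : k * k ≤ 2 * (r * (k - 1)) := by nlinarith
    have b : (k * k) ^ 4 ≤ (2 * (r * (k - 1))) ^ 4 := pow_le_pow_left₀ (by positivity) a 4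
    have d := mul_le_mul_of_nonneg_right hh.le p8.le
    rw [mul_pow 2, show (k * k) ^ 4 = k ^ 8 by ring] at b
    rw [show k * k ^ 8 = k ^ 9 by ring] at d
    generalize (r * (k - 1)) ^ 4 = X at *
    linarith
  have a : 99 * (r * k) ≤ 100 * (r * (k - 1)) := by nlinarith
  have b : (99 * (r * k)) ^ 4 ≤ (100 * (r * (k - 1))) ^ 4 := pow_le_pow_left₀ (by positivity) a 4
  rw [mul_pow 100, show (99 * (r * k)) ^ 4 = 96059601 * (r ^ 4 * k ^ 4) by ring] at b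
  have r4 : 0 < r ^ 4 := by positivity
  have y : 0 < r ^ 4 * k ^ 4 := by positivity
  have key : 9 * 10 ^ 23 * r ^ 4 ≤ k ^ 5 := by
    refine le_of_mul_le_mul_right ?_ p4
    rw [show k ^ 5 * k ^ 4 = k ^ 9 by ring, mul_assoc]
    generalize (r * (k - 1)) ^ 4 = X at *
    generalize r ^ 4 * k ^ 4 = Y at *
    linarith
  have s0 : k ^ 2 ≤ 2 * (r * (r - 1)) := by nlinarith
  have s2 : (r * (r - 1)) ^ 2 ≤ r ^ 4 := by
    calc (r * (r - 1)) ^ 2 ≤ (r ^ 2) ^ 2 := pow_le_pow_left₀ (by nlinarith) (by nlinarith) 2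
      _ = r ^ 4 := by ring
  have hd := F5_comb k _ (F5_dvd0 k r h0) (F5_dvd1 k r h1) (F5_dvd2 k r h2) (F5_dvd3 k r h3)
  generalize r * (r - 1) = s at *
  have q2 := sq_nonneg s
  have s3 : 9 * 10 ^ 23 * s ^ 2 ≤ k ^ 5 := by linarith
  obtain ⟨f0, f1⟩ := size5 k s kbig s0 (by linarith)
  have hd' := Int.le_of_dvd (by linarith) hd
  have hD : k ^ 25 ≤ (k+0)^10*(k+1)^6*(k+2)^5*(k+3)^4 := by
    calc k ^ 25 = k^10*k^6*k^5*k^4 := by ring
      _ ≤ _ := by gcongr <;> linarith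
  have d := mul_le_mul_of_nonneg_left s3 (by positivity : 0 ≤ k ^ 20)
  rw [show k ^ 20 * k ^ 5 = k ^ 25 by ring,
    show k ^ 20 * (9 * 10 ^ 23 * s ^ 2) = 9 * 10 ^ 23 * (k ^ 20 * s ^ 2) by ring] at d
  have p25 : 0 < k ^ 25 := by positivity
  generalize (k+0)^10*(k+1)^6*(k+2)^5*(k+3)^4 = D at *
  generalize k ^ 20 * s ^ 2 = T at *
  generalize F5 k s = V at *
  linarith

theorem main5 {Ω : Type} [Fintype Ω] [DecidableEq Ω] {t k : ℕ} {𝔅 : Finset (Finset Ω)}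
    (h : St t k 𝔅) (ht : 5 ≤ t) (hk : t < k) (hv : k < Fintype.card Ω) :
    (k - t + 2) ^ 9 ≤ 10 ^ 24 * (Fintype.card Ω - t + 1) ^ 4 := by
  obtain ⟨a, ha⟩ : ∃ a, k = t + a := ⟨k - t, by omega⟩
  obtain ⟨u, hu⟩ : ∃ u, Fintype.card Ω = t + u := ⟨Fintype.card Ω - t, by omega⟩
  obtain ⟨r, e1⟩ := h.asc a u 1 (by omega) ha hu
  obtain ⟨b2, e2⟩ := h.asc a u 2 (by omega) ha hu
  obtain ⟨b3, e3⟩ := h.asc a u 3 (by omega) ha hu
  obtain ⟨b4, e4⟩ := h.asc a u 4 (by omega) ha hu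
  obtain ⟨b5, e5⟩ := h.asc a u 5 (by omega) ha hu
  simp only [Nat.ascFactorial_succ, Nat.ascFactorial_zero] at e1 e2 e3 e4 e5
  obtain ⟨m, rfl⟩ : ∃ m, t = m + 2 := ⟨t - 2, by omega⟩
  have hf := h.fisher hk hv
  rw [show k - m = a + 2 by omega, show k - (m + 1) = a + 1 by omega,
    show Fintype.card Ω - (m + 1) = u + 1 by omega] at hf
  rw [show k - (m + 2) = a by omega, show Fintype.card Ω - (m + 2) = u by omega]
  have ha1 : 1 ≤ a := by omega
  zify at e1 e2 e3 e4 e5 hf ha1 ⊢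
  have := ints5 (a + 2) (u + 2) r b2 b3 b4 b5 (by linarith) (by linarith)
    (by linear_combination e1) (by linear_combination e2) (by linear_combination e3)
    (by linear_combination e4) (by linear_combination e5)
  rw [show (u : ℤ) + 2 - 1 = u + 1 by ring] at this
  exact this

end Pool.Agent.FS.SuperFive
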